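import Pool.Agent.K1H2.BI.Stm

/-!
Piece INNER of project BI: inner deviations, almost surely.
-/

set_option autoImplicit false

namespace Pool.Agent.K1H31.BI

open MeasureTheory ProbabilityTheory Filter Pool.Agent.K1H2.BI
open scoped ENNReal Topology BigOperators

universe u

/-- the pathwise argument -/
theorem path (ht : S_TRAJ) (hd : S_DEV) (ins : ℕ → Inst) (c : ℝ) (hc : 0 < c)
    (hW : ∀ K : ℝ, ∃ᶠ n : ℕ in atTop,
      ∑ j ∈ Finset.range n, (((ins j).1.length : ℝ) - 1) ≤ -K * Real.sqrt n)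
    (hT : ∀ᶠ m : ℕ in atTop, ∀ n : ℕ, m ≤ (X ins n).t → c * (m : ℝ) ^ (5 / 3 : ℝ) ≤ n) :
    (∀ t : ℕ, 1 ≤ t → ∃ n, (X ins n).t = t) ∧
      ∀ K : ℝ, ∃ᶠ t : ℕ in atTop, K * Real.sqrt (rad t) ≤ devI (agg ins t) t := by
  obtain ⟨hInv, hS, -, -, hA⟩ := ht ins
  have hlen : ∀ n, (1 : ℝ) ≤ ((X ins n).L.length : ℝ) := by
    intro n
    have h1 : (X ins n).L ≠ [] := (hInv n).1
    have h2 : 0 < (X ins n).L.length := List.length_pos_iff.mpr h1
    exact_mod_cast h2
  have hcard : ∀ n, (1 : ℝ) ≤ ((X ins n).A.card : ℝ) := by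
    intro n
    have h1 : (0 : Site) ∈ (X ins n).A := (hInv n).2.2.1
    have h2 : 0 < (X ins n).A.card := Finset.card_pos.mpr ⟨_, h1⟩
    exact_mod_cast h2
  have hSn : ∀ n, ((X ins n).A.card : ℝ) + (X ins n).L.length - (X ins n).t - 1 =
      ∑ j ∈ Finset.range n, (((ins j).1.length : ℝ) - 1) := hS
  have hup : ∀ n, 1 - ∑ j ∈ Finset.range n, (((ins j).1.length : ℝ) - 1) ≤ (X ins n).t := by
    intro n
    have := hSn n
    linarith [hlen n, hcard n]
  have hdn : ∀ n, ((X ins n).A.card : ℝ) ≤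
      (X ins n).t + ∑ j ∈ Finset.range n, (((ins j).1.length : ℝ) - 1) := by
    intro n
    have := hSn n
    linarith [hlen n]
  constructor
  · intro t h1
    obtain ⟨n, hn1, hn⟩ := (frequently_atTop.mp (hW t)) 1
    have h2 : (1 : ℝ) ≤ Real.sqrt n := by
      rw [Real.one_le_sqrt]
      exact_mod_cast hn1
    have h3 : (t : ℝ) ≤ (X ins n).t := by
      have h4 : (t : ℝ) * 1 ≤ t * Real.sqrt n := mul_le_mul_of_nonneg_left h2 (Nat.cast_nonneg t)
      linarith [hup n]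
    have h4 : t ≤ (X ins n).t := by exact_mod_cast h3
    exact ⟨T ins t, (hA t n h1 h4).2.1⟩
  · intro K
    obtain ⟨K', hK', hD⟩ := hd.1 K
    have hsc : 0 < Real.sqrt c := Real.sqrt_pos.mpr hc
    obtain ⟨M, hM⟩ := eventually_atTop.mp (hD.and hT)
    rw [frequently_atTop]
    intro N
    -- a large n
    obtain ⟨n0, hn0⟩ : ∃ n0 : ℕ, ∀ n ≥ n0, ((max M N : ℕ) : ℝ) ≤ K' / Real.sqrt c * Real.sqrt n := by
      have hq : 0 < K' / Real.sqrt c := div_pos hK' hsc
      obtain ⟨n0, h⟩ := exists_nat_ge ((((max M N : ℕ) : ℝ) / (K' / Real.sqrt c)) ^ 2)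
      refine ⟨n0, fun n hn => ?_⟩
      have h1 : (((max M N : ℕ) : ℝ) / (K' / Real.sqrt c)) ≤ Real.sqrt n := by
        apply Real.le_sqrt_of_sq_le
        exact h.trans (by exact_mod_cast hn)
      rw [div_le_iff₀ hq] at h1
      linarith
    obtain ⟨n, hn, hWn⟩ := (frequently_atTop.mp (hW (K' / Real.sqrt c))) n0
    have h1 := hn0 n hn
    have h2 := hup n
    have h3 : ((max M N : ℕ) : ℝ) ≤ (X ins n).t := by linarith
    have h4 : max M N ≤ (X ins n).t := by exact_mod_cast h3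
    have hMt : M ≤ (X ins n).t := le_trans (le_max_left _ _) h4
    have hNt : N ≤ (X ins n).t := le_trans (le_max_right _ _) h4
    obtain ⟨hD1, hT1⟩ := hM _ hMt
    refine ⟨(X ins n).t, hNt, hD1 _ ?_⟩
    have ht1 : 1 ≤ (X ins n).t := (hInv n).2.2.2
    have hsub := (hA _ n ht1 le_rfl).2.2.2.1
    have hcA : ((agg ins (X ins n).t).card : ℝ) ≤ (X ins n).A.card := by
      exact_mod_cast Finset.card_le_card hsub
    have h5 := hT1 n le_rfl
    set t : ℝ := ((X ins n).t : ℝ) with htdef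
    have ht0 : 0 ≤ t := Nat.cast_nonneg _
    have h6 : Real.sqrt c * t ^ (5 / 6 : ℝ) ≤ Real.sqrt n := by
      apply Real.le_sqrt_of_sq_le
      rw [mul_pow, Real.sq_sqrt hc.le, ← Real.rpow_natCast, ← Real.rpow_mul ht0]
      norm_num
      norm_num at h5
      exact h5
    have h7 : K' * t ^ (5 / 6 : ℝ) ≤ K' / Real.sqrt c * Real.sqrt n := by
      have h8 : K' / Real.sqrt c * (Real.sqrt c * t ^ (5 / 6 : ℝ)) ≤
          K' / Real.sqrt c * Real.sqrt n :=
        mul_le_mul_of_nonneg_left h6 (div_pos hK' hsc).le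
      have h9 : K' / Real.sqrt c * (Real.sqrt c * t ^ (5 / 6 : ℝ)) = K' * t ^ (5 / 6 : ℝ) := by
        field_simp
      linarith
    have h10 := hdn n
    linarith

/-- **piece INNER** -/
theorem t_INNER : S_WALK.{u} → S_TIMEAS.{u} → S_DEV → S_TRAJ → S_INNER.{u} := by
  intro hw hta hd ht Ω _ P _ ν ins hν hdr
  obtain ⟨c, hc, hT⟩ := hta ν hν
  have h1 := (hw Ω P ν ins hν hdr).1
  have h2 := hT Ω P ins hdr
  constructor
  · filter_upwards [h1, h2] with ω hω1 hω2
    exact (path ht hd (at' ins ω) c hc hω1 hω2).1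
  · filter_upwards [h1, h2] with ω hω1 hω2
    exact (path ht hd (at' ins ω) c hc hω1 hω2).2

end Pool.Agent.K1H31.BI
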