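import Pool.Agent.K1H53.BI.Plan2

/-!
Piece HARM of project BI (helper53): an explicit superharmonic function on the lattice.
-/

set_option autoImplicit false

namespace Pool.Agent.K1H31.BI53

open Finset Pool.Agent.K1H53.BI

/-- polynomial upper bound for `1 / sqrt (1 + u)` -/
noncomputable def pp (u : ℝ) : ℝ := 1 - u / 2 + 3 / 8 * u ^ 2 - 5 / 16 * u ^ 3 + u ^ 4

lemma pp_pos {u : ℝ} (h : |u| ≤ 1 / 4) : 0 < pp u := by
  have h1 := (abs_le.mp h).1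
  have h2 := (abs_le.mp h).2
  unfold pp
  have h3 : u ^ 3 ≤ u ^ 2 / 4 := by nlinarith [sq_nonneg u]
  nlinarith [sq_nonneg u, sq_nonneg (u ^ 2)]

lemma pp_sq {u : ℝ} (h : |u| ≤ 1 / 4) : 1 ≤ pp u ^ 2 * (1 + u) := by
  have h1 := (abs_le.mp h).1
  have h2 := (abs_le.mp h).2
  have e : pp u ^ 2 * (1 + u) - 1 = u ^ 4 * (93 / 64 + 39 / 32 * u - 99 / 256 * u ^ 2 +
      57 / 256 * u ^ 3 + 3 / 8 * u ^ 4 + u ^ 5) := by
    unfold pp
    ring
  have a2 : u ^ 2 ≤ 1 / 16 := by nlinarith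
  have a2' : 0 ≤ u ^ 2 := sq_nonneg u
  have a4 : u ^ 4 ≤ 1 / 16 := by nlinarith
  have a4' : 0 ≤ u ^ 4 := by positivity
  have a3 : -(1 / 16) ≤ u ^ 3 := by nlinarith
  have a5 : -(1 / 16) ≤ u ^ 5 := by nlinarith
  have h3 : 0 ≤ u ^ 4 * (93 / 64 + 39 / 32 * u - 99 / 256 * u ^ 2 +
      57 / 256 * u ^ 3 + 3 / 8 * u ^ 4 + u ^ 5) := by
    apply mul_nonneg a4'
    linarith
  linarith

lemma inv_sqrt_le {a u : ℝ} (ha : 0 < a) (hu : |u| ≤ 1 / 4) :
    (Real.sqrt (a * (1 + u)))⁻¹ ≤ pp u * (Real.sqrt a)⁻¹ := by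
  have h1 := (abs_le.mp hu).1
  have hu1 : 0 < 1 + u := by linarith
  have hb : 0 < a * (1 + u) := mul_pos ha hu1
  have hsa : 0 < Real.sqrt a := Real.sqrt_pos.mpr ha
  have hsb : 0 < Real.sqrt (a * (1 + u)) := Real.sqrt_pos.mpr hb
  have hp := pp_pos hu
  have hsq := pp_sq hu
  have h2 : Real.sqrt a ≤ pp u * Real.sqrt (a * (1 + u)) := by
    apply Real.sqrt_le_iff.mpr
    refine ⟨by positivity, ?_⟩
    rw [mul_pow, Real.sq_sqrt hb.le]
    nlinarith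
  rw [← div_eq_mul_inv, le_div_iff₀ hsa, inv_mul_le_iff₀ hsb]
  linarith

lemma pair_le {a t : ℝ} (ha : 0 < a) (hu : |2 * t / a| ≤ 1 / 4) :
    (Real.sqrt (a + 2 * t))⁻¹ + (Real.sqrt (a - 2 * t))⁻¹ ≤
      (2 + 3 / 4 * (2 * t / a) ^ 2 + 2 * (2 * t / a) ^ 4) * (Real.sqrt a)⁻¹ := by
  have e1 : a + 2 * t = a * (1 + 2 * t / a) := by field_simp
  have e2 : a - 2 * t = a * (1 + -(2 * t / a)) := by field_simp; ring
  have h1 := inv_sqrt_le ha hu
  have h2 := inv_sqrt_le (u := -(2 * t / a)) ha (by rwa [abs_neg])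
  rw [← e1] at h1
  rw [← e2] at h2
  have e3 : (2 + 3 / 4 * (2 * t / a) ^ 2 + 2 * (2 * t / a) ^ 4) * (Real.sqrt a)⁻¹ =
      pp (2 * t / a) * (Real.sqrt a)⁻¹ + pp (-(2 * t / a)) * (Real.sqrt a)⁻¹ := by
    unfold pp
    ring
  rw [e3]
  exact add_le_add h1 h2

lemma u_small {N t : ℝ} (hN : t ^ 2 ≤ N) : |2 * t / (N + 21)| ≤ 1 / 4 := by
  have hN0 : 0 ≤ N := (sq_nonneg t).trans hN
  rw [abs_div, abs_of_pos (show (0 : ℝ) < N + 21 by linarith), div_le_iff₀ (by linarith), abs_le]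
  constructor <;> nlinarith [sq_nonneg (t - 4), sq_nonneg (t + 4)]

lemma key (x y z N : ℝ) (hN : N = x ^ 2 + y ^ 2 + z ^ 2) :
    ((Real.sqrt (N + 21 + 2 * x))⁻¹ + (Real.sqrt (N + 21 - 2 * x))⁻¹) +
    ((Real.sqrt (N + 21 + 2 * y))⁻¹ + (Real.sqrt (N + 21 - 2 * y))⁻¹) +
    ((Real.sqrt (N + 21 + 2 * z))⁻¹ + (Real.sqrt (N + 21 - 2 * z))⁻¹) ≤
      6 * (Real.sqrt (N + 20))⁻¹ := by
  have hN0 : 0 ≤ N := by rw [hN]; positivity
  set a : ℝ := N + 21 with ha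
  have ha0 : 0 < a := by linarith
  have h1 := pair_le (t := x) ha0 (u_small (by rw [hN]; nlinarith [sq_nonneg y, sq_nonneg z]))
  have h2 := pair_le (t := y) ha0 (u_small (by rw [hN]; nlinarith [sq_nonneg x, sq_nonneg z]))
  have h3 := pair_le (t := z) ha0 (u_small (by rw [hN]; nlinarith [sq_nonneg x, sq_nonneg y]))
  have hsa : 0 < Real.sqrt a := Real.sqrt_pos.mpr ha0
  have hn : 0 < Real.sqrt (N + 20) := Real.sqrt_pos.mpr (by linarith)
  have h4 : (1 + 1 / (2 * a)) * (Real.sqrt a)⁻¹ ≤ (Real.sqrt (N + 20))⁻¹ := by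
    rw [← div_eq_mul_inv, div_le_iff₀ hsa, ← div_eq_inv_mul, le_div_iff₀ hn]
    apply Real.le_sqrt_of_sq_le
    rw [mul_pow, Real.sq_sqrt (by linarith)]
    have e : (1 + 1 / (2 * a)) ^ 2 * (N + 20) = a - 3 / (4 * a) - 1 / (4 * a ^ 2) := by
      have : N + 20 = a - 1 := by rw [ha]; ring
      rw [this]
      field_simp
      ring
    rw [e]
    have p1 : 0 < 3 / (4 * a) := by positivity
    have p2 : 0 < 1 / (4 * a ^ 2) := by positivity
    linarith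
  have h5 : (2 + 3 / 4 * (2 * x / a) ^ 2 + 2 * (2 * x / a) ^ 4) +
      (2 + 3 / 4 * (2 * y / a) ^ 2 + 2 * (2 * y / a) ^ 4) +
      (2 + 3 / 4 * (2 * z / a) ^ 2 + 2 * (2 * z / a) ^ 4) ≤ 6 * (1 + 1 / (2 * a)) := by
    have e1 : (2 + 3 / 4 * (2 * x / a) ^ 2 + 2 * (2 * x / a) ^ 4) +
      (2 + 3 / 4 * (2 * y / a) ^ 2 + 2 * (2 * y / a) ^ 4) +
      (2 + 3 / 4 * (2 * z / a) ^ 2 + 2 * (2 * z / a) ^ 4) =
      6 + 3 * N / a ^ 2 + 32 * (x ^ 4 + y ^ 4 + z ^ 4) / a ^ 4 := by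
      rw [hN]
      field_simp
      ring
    have e2 : x ^ 4 + y ^ 4 + z ^ 4 ≤ N ^ 2 := by
      rw [hN]
      nlinarith [mul_nonneg (sq_nonneg x) (sq_nonneg y), mul_nonneg (sq_nonneg x) (sq_nonneg z),
        mul_nonneg (sq_nonneg y) (sq_nonneg z)]
    have e3 : 32 * (x ^ 4 + y ^ 4 + z ^ 4) / a ^ 4 ≤ 32 / a ^ 2 := by
      rw [div_le_div_iff₀ (by positivity) (by positivity)]
      have q1 : N ^ 2 ≤ a ^ 2 := by nlinarith
      have q2 : x ^ 4 + y ^ 4 + z ^ 4 ≤ a ^ 2 := e2.trans q1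
      have q3 : 0 ≤ a ^ 2 := by positivity
      calc 32 * (x ^ 4 + y ^ 4 + z ^ 4) * a ^ 2 ≤ 32 * a ^ 2 * a ^ 2 := by nlinarith
        _ = 32 * a ^ 4 := by ring
    have e4 : 6 * (1 + 1 / (2 * a)) = 6 + (3 * a) / a ^ 2 := by
      field_simp
      ring
    rw [e1, e4]
    have e5 : 3 * N / a ^ 2 + 32 / a ^ 2 ≤ 3 * a / a ^ 2 := by
      rw [← add_div]
      apply div_le_div_of_nonneg_right _ (by positivity)
      linarith
    linarith
  have h6 := mul_le_mul_of_nonneg_right h5 (inv_pos.mpr hsa).le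
  nlinarith

/-- squared norm as a real number -/
noncomputable def rn (x : V) : ℝ := ∑ i, (x i : ℝ) ^ 2

lemma nsq_cast (x : V) : ((nsq x : ℕ) : ℝ) = rn x := by
  unfold nsq rn
  rw [Nat.cast_sum]
  refine Finset.sum_congr rfl fun i _ => ?_
  rw [Nat.cast_pow, Nat.cast_natAbs, Int.cast_abs, sq_abs]

lemma rn_nonneg (x : V) : 0 ≤ rn x := Finset.sum_nonneg fun _ _ => sq_nonneg _

/-- the function -/
noncomputable def gg (c : ℝ) (x : V) : ℝ := c * (Real.sqrt (rn x + 20))⁻¹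

lemma gg_nonneg {c : ℝ} (hc : 0 ≤ c) (x : V) : 0 ≤ gg c x :=
  mul_nonneg hc (inv_nonneg.mpr (Real.sqrt_nonneg _))

lemma gg_super {c : ℝ} (hc : 0 ≤ c) (x : V) :
    ∑ e : Fin 3 × Bool, gg c (x + dir e) ≤ 6 * gg c x := by
  have h := key (x 0) (x 1) (x 2) (rn x) (by
    unfold rn
    rw [Fin.sum_univ_three])
  have e : ∑ e : Fin 3 × Bool, gg c (x + dir e) = c * (
    ((Real.sqrt (rn x + 21 + 2 * x 0))⁻¹ + (Real.sqrt (rn x + 21 - 2 * x 0))⁻¹) +
    ((Real.sqrt (rn x + 21 + 2 * x 1))⁻¹ + (Real.sqrt (rn x + 21 - 2 * x 1))⁻¹) +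
    ((Real.sqrt (rn x + 21 + 2 * x 2))⁻¹ + (Real.sqrt (rn x + 21 - 2 * x 2))⁻¹)) := by
    have hp : ∀ i : Fin 3, rn (x + dir (i, true)) + 20 = rn x + 21 + 2 * x i := by
      intro i
      unfold rn dir
      fin_cases i <;> simp [Fin.sum_univ_three, Pi.single_apply] <;> ring
    have hm : ∀ i : Fin 3, rn (x + dir (i, false)) + 20 = rn x + 21 - 2 * x i := by
      intro i
      unfold rn dir
      fin_cases i <;> simp [Fin.sum_univ_three, Pi.single_apply] <;> ring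
    rw [Fintype.sum_prod_type]
    simp only [Fintype.sum_bool, Fin.sum_univ_three, gg, hp, hm]
    ring
  rw [e]
  unfold gg
  nlinarith [mul_le_mul_of_nonneg_left h hc]

/-- **piece HARM** -/
theorem t_HARM : S_HARM := by
  intro ρ hρ
  have hc2 : (0 : ℝ) ≤ ρ ^ 2 + 20 := by positivity
  set c : ℝ := Real.sqrt (ρ ^ 2 + 20) with hc
  have hc0 : 0 ≤ c := Real.sqrt_nonneg _
  refine ⟨fun x => min 1 (gg c x), fun x => le_min zero_le_one (gg_nonneg hc0 x),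
    fun x => min_le_left _ _, ?_, ?_, ?_⟩
  · intro x
    show ∑ e : Fin 3 × Bool, min 1 (gg c (x + dir e)) ≤ 6 * min 1 (gg c x)
    rcases le_total 1 (gg c x) with h | h
    · rw [min_eq_left h]
      calc ∑ e : Fin 3 × Bool, min 1 (gg c (x + dir e)) ≤ ∑ _e : Fin 3 × Bool, (1 : ℝ) :=
            Finset.sum_le_sum fun e _ => min_le_left _ _
        _ = 6 * 1 := by
            rw [Finset.sum_const, Finset.card_univ]
            simp
    · rw [min_eq_right h]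
      exact (Finset.sum_le_sum fun e _ => min_le_right _ _).trans (gg_super hc0 x)
  · intro x hx
    show min 1 (gg c x) = 1
    apply min_eq_left
    have hx2 : rn x ≤ ρ ^ 2 := by
      unfold nrm at hx
      rw [nsq_cast] at hx
      exact (Real.sqrt_le_left (by linarith)).mp hx
    unfold gg
    have h1 : 0 < Real.sqrt (rn x + 20) := Real.sqrt_pos.mpr (by linarith [rn_nonneg x])
    rw [← div_eq_mul_inv, le_div_iff₀ h1, one_mul]
    exact Real.sqrt_le_sqrt (by linarith)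
  · intro x hx
    show min 1 (gg c x) ≤ 3 / 4
    refine (min_le_right _ _).trans ?_
    have hx2 : (2 * ρ) ^ 2 ≤ rn x := by
      unfold nrm at hx
      rw [nsq_cast] at hx
      exact (Real.le_sqrt' (by linarith)).mp hx
    unfold gg
    have h1 : 0 < Real.sqrt (rn x + 20) := Real.sqrt_pos.mpr (by linarith [rn_nonneg x])
    rw [← div_eq_mul_inv, div_le_iff₀ h1]
    rw [hc]
    apply Real.sqrt_le_iff.mpr
    refine ⟨by positivity, ?_⟩
    rw [mul_pow, Real.sq_sqrt (by linarith [rn_nonneg x])]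
    nlinarith

end Pool.Agent.K1H31.BI53
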